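import Pool.Agent.Helper47.LD4.L5

/-!
# Project LD4, block L5 for rational bases
-/

set_option autoImplicit false

namespace Pool.Agent.Helper47.LD4

open Set MeasureTheory Filter Topology
open Pool.Agent.Helper41.LD (av)
open Pool.Agent.Helper41.LD4

theorem per_nat' {f : ℝ → ℝ} (hf : Function.Periodic f 1) (N : ℕ) (z : ℝ) : f (z + N) = f z := by
  have h := hf.nat_mul N z
  rwa [mul_one] at h

/-- a periodic function depends only on the residue class -/
theorem per_mod {f : ℝ → ℝ} (hf : Function.Periodic f 1) {p : ℕ} (hp : 0 < p) (N : ℕ) (z : ℝ) :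
    f (z + N / p) = f (z + ((N % p : ℕ) : ℝ) / p) := by
  have hp' : (p : ℝ) ≠ 0 := by exact_mod_cast hp.ne'
  have h1 : (N : ℝ) = ((N % p : ℕ) : ℝ) + p * ((N / p : ℕ) : ℝ) := by exact_mod_cast (Nat.mod_add_div N p).symm
  rw [h1, add_div, mul_div_cancel_left₀ _ hp', ← add_assoc, per_nat' hf]

theorem sum_mul_mod {g : ℕ → ℝ} {p c : ℕ} (hp : 0 < p) (hc : Nat.Coprime c p) :
    ∑ j ∈ Finset.range p, g (c * j % p) = ∑ j ∈ Finset.range p, g j := by
  refine Finset.sum_bij (fun j _ => c * j % p) (fun j _ => Finset.mem_range.2 (Nat.mod_lt _ hp)) ?_ ?_ (fun j _ => rfl)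
  · intro i hi j hj hij
    have h1 : c * i ≡ c * j [MOD p] := hij
    have h2 : i ≡ j [MOD p] := Nat.ModEq.cancel_left_of_coprime (by rwa [Nat.coprime_comm] at hc) h1
    rwa [Nat.ModEq, Nat.mod_eq_of_lt (Finset.mem_range.1 hi), Nat.mod_eq_of_lt (Finset.mem_range.1 hj)] at h2
  · intro j hj
    have hsurj : Set.SurjOn (fun j => c * j % p) (Finset.range p : Set ℕ) (Finset.range p : Set ℕ) := by
      refine Finset.surjOn_of_injOn_of_card_le (fun j => c * j % p) (fun j _ => Finset.mem_coe.2 (Finset.mem_range.2 (Nat.mod_lt _ hp))) ?_ le_rfl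
      intro i hi j hj hij
      have h1 : c * i ≡ c * j [MOD p] := hij
      have h2 : i ≡ j [MOD p] := Nat.ModEq.cancel_left_of_coprime (by rwa [Nat.coprime_comm] at hc) h1
      rwa [Nat.ModEq, Nat.mod_eq_of_lt (Finset.mem_range.1 hi), Nat.mod_eq_of_lt (Finset.mem_range.1 hj)] at h2
    obtain ⟨i, hi, h⟩ := hsurj (Finset.mem_coe.2 hj)
    exact ⟨i, hi, h⟩

/-- the mean over a period vanishes: the frequencies `q ^ d` and `p ^ d` -/
theorem mean_zero {N₀ N₀' m m' : ℕ} {w w' : ℝ} {f f' : ℝ → ℝ} {p q : ℕ} (hp : 2 ≤ p) (hpq : Nat.Coprime p q)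
    (hf : Fn N₀ m w f) (hf' : Fn N₀' m' w' f') (hker : ∀ x : ℝ, ∑ j ∈ Finset.range p, f (x + j / p) = 0) {d : ℕ} (hd : 1 ≤ d) :
    ∫ z in (0 : ℝ)..1, f ((q : ℝ) ^ d * z) * f' ((p : ℝ) ^ d * z) = 0 := by
  have hp0 : 0 < p := by omega
  have hpR : (p : ℝ) ≠ 0 := by exact_mod_cast hp0.ne'
  set φ : ℝ → ℝ := fun z => f ((q : ℝ) ^ d * z) * f' ((p : ℝ) ^ d * z) with hφ
  have hφm : Measurable φ := (hf.meas.comp (measurable_const_mul _)).mul (hf'.meas.comp (measurable_const_mul _))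
  have hφb : ∀ x, |φ x| ≤ 1 := fun x => by
    rw [hφ, abs_mul]
    exact mul_le_one₀ (hf.bdd _) (abs_nonneg _) (hf'.bdd _)
  have hφp : Function.Periodic φ 1 := fun x => by
    simp only [hφ]
    rw [per_nat hf.per, per_nat hf'.per]
  have hint : ∀ s t : ℝ, IntervalIntegrable φ volume s t := fun s t => by
    refine (intervalIntegrable_const (c := (1 : ℝ))).mono_fun hφm.aestronglyMeasurable ?_
    filter_upwards with x
    simpa using hφb x
  have h1 : ∀ j : ℕ, ∫ z in (0 : ℝ)..1, φ (z + j / p) = ∫ z in (0 : ℝ)..1, φ z := fun j => by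
    rw [intervalIntegral.integral_comp_add_right φ ((j : ℝ) / p), zero_add, add_comm (1 : ℝ),
      hφp.intervalIntegral_add_eq ((j : ℝ) / p) 0, zero_add]
  have h2 : ∀ z : ℝ, ∑ j ∈ Finset.range p, φ (z + j / p) = 0 := fun z => by
    have h3 : ∀ j : ℕ, φ (z + j / p) = f ((q : ℝ) ^ d * z + ((q ^ d * j % p : ℕ) : ℝ) / p) * f' ((p : ℝ) ^ d * z) := fun j => by
      simp only [hφ]
      congr 1
      · rw [← per_mod hf.per hp0]
        congr 1
        push_cast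
        ring
      · obtain ⟨e, rfl⟩ : ∃ e, d = e + 1 := ⟨d - 1, by omega⟩
        have h4 : (p : ℝ) ^ (e + 1) * (z + j / p) = (p : ℝ) ^ (e + 1) * z + ((p ^ e * j : ℕ) : ℝ) := by
          push_cast
          field_simp
          ring
        rw [h4, per_nat' hf'.per]
    simp_rw [h3]
    rw [← Finset.sum_mul, sum_mul_mod (g := fun i => f ((q : ℝ) ^ d * z + (i : ℝ) / p)) hp0
      (Nat.Coprime.pow_left d hpq.symm), hker, zero_mul]
  have h5 : (p : ℝ) * ∫ z in (0 : ℝ)..1, φ z = 0 := by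
    calc (p : ℝ) * ∫ z in (0 : ℝ)..1, φ z = ∑ j ∈ Finset.range p, ∫ z in (0 : ℝ)..1, φ (z + j / p) := by
          simp_rw [h1]
          rw [Finset.sum_const, Finset.card_range, nsmul_eq_mul]
      _ = ∫ z in (0 : ℝ)..1, ∑ j ∈ Finset.range p, φ (z + j / p) := by
          rw [intervalIntegral.integral_finsetSum]
          intro j _
          have := (hint (0 + (j : ℝ) / p) (1 + (j : ℝ) / p)).comp_add_right ((j : ℝ) / p)
          simpa using this
      _ = 0 := by simp_rw [h2]; simp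
  exact (mul_eq_zero.1 h5).resolve_left hpR

/-- the correlation of the frequencies `s` and `(p / q) ^ d * s` -/
theorem corr_rat0 {N₀ N₀' m m' : ℕ} {w w' : ℝ} {f f' : ℝ → ℝ} {p q : ℕ} (hp : 2 ≤ p) (hq : 1 ≤ q) (hpq : Nat.Coprime p q)
    (hf : Fn N₀ m w f) (hf' : Fn N₀' m' w' f') (hker : ∀ x : ℝ, ∑ j ∈ Finset.range p, f (x + j / p) = 0) {d : ℕ} (hd : 1 ≤ d)
    {s a ℓ : ℝ} (hs : 0 < s) (hℓ : 0 < ℓ) :
    |av (fun x => f (s * x) * f' (((p : ℝ) / q) ^ d * s * x)) a ℓ| ≤ (q : ℝ) ^ d / (s * ℓ) := by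
  have hqR : (0 : ℝ) < q := by exact_mod_cast hq
  have hqd : (0 : ℝ) < (q : ℝ) ^ d := pow_pos hqR d
  set φ : ℝ → ℝ := fun z => f ((q : ℝ) ^ d * z) * f' ((p : ℝ) ^ d * z) with hφ
  have hφm : Measurable φ := (hf.meas.comp (measurable_const_mul _)).mul (hf'.meas.comp (measurable_const_mul _))
  have hφb : ∀ x, |φ x| ≤ 1 := fun x => by
    rw [hφ, abs_mul]
    exact mul_le_one₀ (hf.bdd _) (abs_nonneg _) (hf'.bdd _)
  have hφp : Function.Periodic φ 1 := fun x => by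
    simp only [hφ]
    rw [per_nat hf.per, per_nat hf'.per]
  have hφ0 : ∫ t in (0 : ℝ)..1, φ t = 0 := mean_zero hp hpq hf hf' hker hd
  set c : ℝ := s / (q : ℝ) ^ d with hc
  have hc0 : 0 < c := by positivity
  have h2 : (∫ x in a..(a + ℓ), f (s * x) * f' (((p : ℝ) / q) ^ d * s * x)) = c⁻¹ * ∫ x in c * a..c * (a + ℓ), φ x := by
    have h6 := intervalIntegral.integral_comp_mul_left (a := a) (b := a + ℓ) φ hc0.ne'
    rw [smul_eq_mul] at h6
    rw [← h6]
    refine intervalIntegral.integral_congr fun z _ => ?_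
    simp only [hφ]
    have e1 : (q : ℝ) ^ d * (c * z) = s * z := by
      rw [hc]
      field_simp
    have e2 : (p : ℝ) ^ d * (c * z) = ((p : ℝ) / q) ^ d * s * z := by
      rw [hc, div_pow]
      ring
    rw [e1, e2]
  unfold av
  rw [h2, abs_div, abs_mul, abs_of_pos (inv_pos.2 hc0), abs_of_pos hℓ]
  have h3 := abs_integral_le_one hφm hφb hφp hφ0 (c * a) (c * (a + ℓ))
  calc c⁻¹ * |∫ x in c * a..c * (a + ℓ), φ x| / ℓ ≤ c⁻¹ * 1 / ℓ := by gcongr
    _ = (q : ℝ) ^ d / (s * ℓ) := by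
        rw [hc]
        field_simp

/-- L5: the same rational base -/
theorem corr_rat {N₀ N₀' m m' : ℕ} {w w' : ℝ} {f f' : ℝ → ℝ} {b q : ℕ} (hq : 1 ≤ q) (hqb : q < b) (hco : Nat.Coprime b q)
    (hf : Fn N₀ m w f) (hf' : Fn N₀' m' w' f') (hker : ∀ x : ℝ, ∑ j ∈ Finset.range b, f (x + j / b) = 0) {d : ℕ} (hd : 1 ≤ d)
    {s s' a ℓ : ℝ} (hs : 0 < s) (hs' : s' = s * ((b : ℝ) / q) ^ d) (hℓ : 0 < ℓ) :
    |av (fun x => f (s * x) * f' (s' * x)) a ℓ| ≤ (q : ℝ) ^ d / (s * ℓ) := by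
  rw [hs', mul_comm s]
  exact corr_rat0 (by omega) hq hco hf hf' hker hd hs hℓ

end Pool.Agent.Helper47.LD4
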