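import Pool.Agent.Helper41.LD4.Defs

/-!
# Project LD4, block N2: children on which a test function is not constant
-/

set_option autoImplicit false

namespace Pool.Agent.Helper47.LD4

open Set MeasureTheory Filter Topology
open Pool.Agent.Helper41.LD4

/-- a function of the integer part that is not constant on an open interval: there is an integer inside -/
theorem exists_int {g : ℝ → ℝ} {p q : ℝ} (h : ¬ ∃ v : ℝ, ∀ t ∈ Ioo p q, g t = v) (hg : ∀ s t : ℝ, ⌊s⌋ = ⌊t⌋ → g s = g t) :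
    ∃ k : ℤ, p < k ∧ (k : ℝ) < q := by
  by_contra hc
  push Not at hc
  apply h
  rcases le_or_gt q p with hqp | hpq
  · exact ⟨0, fun t ht => absurd (ht.1.trans ht.2) (not_lt.2 hqp)⟩
  refine ⟨g ((p + q) / 2), fun t ht => hg _ _ ?_⟩
  have key : ∀ s ∈ Ioo p q, ∀ s' ∈ Ioo p q, s ≤ s' → ⌊s⌋ = ⌊s'⌋ := by
    intro s hs s' hs' hss
    refine le_antisymm (Int.floor_le_floor hss) (not_lt.1 fun hlt => ?_)
    have h1 : (⌊s'⌋ : ℝ) ≤ s' := Int.floor_le _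
    have h2 : s < ⌊s'⌋ := Int.floor_lt.1 hlt
    exact absurd (h1.trans_lt hs'.2) (not_lt.2 (hc ⌊s'⌋ (hs.1.trans h2)))
  have hm : (p + q) / 2 ∈ Ioo p q := ⟨by linarith, by linarith⟩
  rcases le_total t ((p + q) / 2) with h1 | h1
  · exact key _ ht _ hm h1
  · exact (key _ hm _ ht h1).symm

open Classical in
/-- N2: children on which the test function is not constant -/
theorem few4 {N₀ m : ℕ} {w : ℝ} {f : ℝ → ℝ} (hf : Fn N₀ m w f) (hN₀ : 1 ≤ N₀) {s d a ℓ : ℝ} (hs : 0 < s) (hℓ : 0 < ℓ) {B : ℕ} (hB : 1 ≤ B) :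
    (((Finset.range B).filter fun b : ℕ => ¬ ∃ v : ℝ, ∀ x ∈ Ioo (a + b * (ℓ / B)) (a + (b + 1) * (ℓ / B)), f (s * x + d) = v).card : ℝ) ≤
      N₀ * (s * ℓ) + 1 := by
  have hN : (0 : ℝ) < N₀ := by exact_mod_cast hN₀
  have hB0 : (0 : ℝ) < B := by exact_mod_cast hB
  set S := (Finset.range B).filter fun b : ℕ => ¬ ∃ v : ℝ, ∀ x ∈ Ioo (a + b * (ℓ / B)) (a + (b + 1) * (ℓ / B)), f (s * x + d) = v with hS
  have hex : ∀ b ∈ S, ∃ k : ℤ, (N₀ : ℝ) * (s * (a + b * (ℓ / B)) + d) < k ∧ (k : ℝ) < N₀ * (s * (a + (b + 1) * (ℓ / B)) + d) := by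
    intro b hb
    have h1 := (Finset.mem_filter.1 hb).2
    refine exists_int (g := fun t => f (t / N₀)) (fun h2 => h1 ?_) fun x y hxy => hf.grid _ _ ?_
    · obtain ⟨v, hv⟩ := h2
      refine ⟨v, fun x hx => ?_⟩
      have h3 := hv (N₀ * (s * x + d)) ⟨by have := hx.1; gcongr, by have := hx.2; gcongr⟩
      simpa [mul_div_cancel_left₀ _ hN.ne'] using h3
    · rw [mul_div_cancel₀ _ hN.ne', mul_div_cancel₀ _ hN.ne']
      exact hxy
  choose! k hk1 hk2 using hex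
  have hinj : Set.InjOn k (S : Set ℕ) := by
    intro b hb c hc hbc
    have key : ∀ b ∈ S, ∀ c ∈ S, k b = k c → ¬ b < c := by
      intro b hb c hc hbc hlt
      have h1 := hk2 b hb
      have h2 := hk1 c hc
      rw [← hbc] at h2
      have h3 : (b : ℝ) + 1 ≤ c := by exact_mod_cast hlt
      have h4 : (N₀ : ℝ) * (s * (a + (b + 1) * (ℓ / B)) + d) ≤ N₀ * (s * (a + c * (ℓ / B)) + d) := by gcongr
      linarith
    exact le_antisymm (not_lt.1 (key c hc b hb hbc.symm)) (not_lt.1 (key b hb c hc hbc))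
  set P : ℝ := N₀ * (s * a + d) with hP
  have hmaps : ∀ b ∈ S, k b ∈ Finset.Icc (⌊P⌋ + 1) (⌈P + N₀ * (s * ℓ)⌉ - 1) := by
    intro b hb
    have hbB : (b : ℝ) + 1 ≤ B := by exact_mod_cast Finset.mem_range.1 (Finset.mem_filter.1 hb).1
    have h1 := hk1 b hb
    have h2 := hk2 b hb
    have h3 : (0 : ℝ) ≤ b * (ℓ / B) := by positivity
    have h4 : ((b : ℝ) + 1) * (ℓ / B) ≤ ℓ := by
      calc ((b : ℝ) + 1) * (ℓ / B) ≤ B * (ℓ / B) := by gcongr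
        _ = ℓ := mul_div_cancel₀ _ hB0.ne'
    have h5 : P ≤ N₀ * (s * (a + b * (ℓ / B)) + d) := by
      rw [hP]
      gcongr
      linarith
    have h6 : N₀ * (s * (a + (b + 1) * (ℓ / B)) + d) ≤ P + N₀ * (s * ℓ) := by
      have : N₀ * (s * (a + (b + 1) * (ℓ / B)) + d) ≤ N₀ * (s * (a + ℓ) + d) := by gcongr
      rw [hP]
      linarith [this, show (N₀ : ℝ) * (s * (a + ℓ) + d) = N₀ * (s * a + d) + N₀ * (s * ℓ) by ring]
    rw [Finset.mem_Icc]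
    constructor
    · exact Int.add_one_le_iff.2 (Int.floor_lt.2 (h5.trans_lt h1))
    · exact Int.le_sub_one_iff.2 (Int.lt_ceil.2 (h2.trans_le h6))
  have hcard := Finset.card_le_card_of_injOn k hmaps hinj
  rw [Int.card_Icc] at hcard
  have h7 : (⌊P⌋ : ℝ) > P - 1 := Int.sub_one_lt_floor _
  have h8 : (⌈P + N₀ * (s * ℓ)⌉ : ℝ) < P + N₀ * (s * ℓ) + 1 := Int.ceil_lt_add_one _
  have h9 : (0 : ℝ) < N₀ * (s * ℓ) := by positivity
  have h10 : ((⌈P + N₀ * (s * ℓ)⌉ - 1 + 1 - (⌊P⌋ + 1)).toNat : ℤ) ≤ max (⌈P + N₀ * (s * ℓ)⌉ - 1 + 1 - (⌊P⌋ + 1)) 0 := by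
    rw [Int.toNat_eq_max]
  have h11 : (S.card : ℤ) ≤ max (⌈P + N₀ * (s * ℓ)⌉ - 1 + 1 - (⌊P⌋ + 1)) 0 := le_trans (by exact_mod_cast hcard) h10
  have h12 : (S.card : ℝ) ≤ max ((⌈P + N₀ * (s * ℓ)⌉ : ℝ) - 1 + 1 - (⌊P⌋ + 1)) 0 := by exact_mod_cast h11
  refine h12.trans (max_le ?_ (by linarith))
  linarith

end Pool.Agent.Helper47.LD4
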