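import Pool.Agent.Helper41.LD4.Defs

/-!
# Project LD4, block L5: correlations in the same integer base
-/

set_option autoImplicit false

namespace Pool.Agent.Helper47.LD4

open Set MeasureTheory Filter Topology
open Pool.Agent.Helper41.LD (av)
open Pool.Agent.Helper41.LD4

/-- a function with values in `[-1, 1]`, period 1 and mean 0 has integrals at most 1 -/
theorem abs_integral_le_one {φ : ℝ → ℝ} (hm : Measurable φ) (hb : ∀ x, |φ x| ≤ 1) (hp : Function.Periodic φ 1)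
    (h0 : ∫ t in (0 : ℝ)..1, φ t = 0) (p q : ℝ) : |∫ t in p..q, φ t| ≤ 1 := by
  have hint : ∀ s t : ℝ, IntervalIntegrable φ volume s t := fun s t => by
    refine (intervalIntegrable_const (c := (1 : ℝ))).mono_fun hm.aestronglyMeasurable ?_
    filter_upwards with x
    simpa using hb x
  have hn : (⌊q - p⌋ : ℝ) ≤ q - p := Int.floor_le _
  have hn' : q - p < ⌊q - p⌋ + 1 := Int.lt_floor_add_one _
  have h1 : ∫ t in p..(p + ⌊q - p⌋ • (1 : ℝ)), φ t = 0 := by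
    rw [hp.intervalIntegral_add_zsmul_eq ⌊q - p⌋ p hint, hp.intervalIntegral_add_eq p 0, zero_add, h0, smul_zero]
  rw [← intervalIntegral.integral_add_adjacent_intervals (hint p (p + ⌊q - p⌋ • (1 : ℝ))) (hint _ q), h1, zero_add]
  have h2 := intervalIntegral.norm_integral_le_of_norm_le_const (f := φ) (C := 1) (a := p + ⌊q - p⌋ • (1 : ℝ)) (b := q)
    (fun x _ => by simpa using hb x)
  rw [Real.norm_eq_abs, one_mul] at h2
  refine h2.trans ?_
  rw [abs_of_nonneg]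
  · simp only [zsmul_eq_mul, mul_one]
    linarith
  · simp only [zsmul_eq_mul, mul_one]
    linarith

theorem per_nat {f : ℝ → ℝ} (hf : Function.Periodic f 1) (b k : ℕ) (z : ℝ) : f ((b : ℝ) ^ k * (z + 1)) = f ((b : ℝ) ^ k * z) := by
  have h := hf.nat_mul (b ^ k) ((b : ℝ) ^ k * z)
  push_cast at h
  rw [mul_add, h]

/-- L5: the same integer base -/
theorem corr_int {N₀ N₀' m m' : ℕ} {w w' : ℝ} {f f' : ℝ → ℝ} {b : ℕ} (hb : 2 ≤ b) (hf : Fn N₀ m w f) (hf' : Fn N₀' m' w' f')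
    (hker : ∀ g : ℝ → ℝ, Measurable g → (∀ x, |g x| ≤ 1) → Function.Periodic g 1 → ∫ z in (0 : ℝ)..1, f z * g (b * z) = 0)
    {u u' : ℕ} (h : u < u') {a ℓ : ℝ} (hℓ : 0 < ℓ) :
    |av (fun x => f ((b : ℝ) ^ u * x) * f' ((b : ℝ) ^ u' * x)) a ℓ| ≤ 1 / ((b : ℝ) ^ u * ℓ) := by
  obtain ⟨k, rfl⟩ : ∃ k, u' = u + (k + 1) := ⟨u' - u - 1, by omega⟩
  have hb0 : (0 : ℝ) < b := by exact_mod_cast (by omega : 0 < b)
  have hbu : (0 : ℝ) < (b : ℝ) ^ u := pow_pos hb0 u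
  set φ : ℝ → ℝ := fun z => f z * f' ((b : ℝ) ^ (k + 1) * z) with hφ
  have hφm : Measurable φ := hf.meas.mul (hf'.meas.comp (measurable_const_mul _))
  have hφb : ∀ x, |φ x| ≤ 1 := fun x => by
    rw [hφ, abs_mul]
    exact mul_le_one₀ (hf.bdd x) (abs_nonneg _) (hf'.bdd _)
  have hφp : Function.Periodic φ 1 := fun x => by
    simp only [hφ]
    rw [hf.per x, per_nat hf'.per]
  have hφ0 : ∫ t in (0 : ℝ)..1, φ t = 0 := by
    have h1 := hker (fun y => f' ((b : ℝ) ^ k * y)) (hf'.meas.comp (measurable_const_mul _)) (fun x => hf'.bdd _)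
      (fun x => per_nat hf'.per b k x)
    refine Eq.trans ?_ h1
    refine intervalIntegral.integral_congr fun z _ => ?_
    simp only [hφ]
    rw [pow_succ, mul_assoc]
  have h2 : (∫ x in a..(a + ℓ), f ((b : ℝ) ^ u * x) * f' ((b : ℝ) ^ (u + (k + 1)) * x)) =
      ((b : ℝ) ^ u)⁻¹ * ∫ x in (b : ℝ) ^ u * a..(b : ℝ) ^ u * (a + ℓ), φ x := by
    rw [← smul_eq_mul, ← intervalIntegral.integral_comp_mul_left φ hbu.ne']
    refine intervalIntegral.integral_congr fun z _ => ?_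
    simp only [hφ]
    rw [pow_add, ← mul_assoc ((b : ℝ) ^ (k + 1)), mul_comm ((b : ℝ) ^ (k + 1))]
  unfold av
  rw [h2, abs_div, abs_mul, abs_of_pos (inv_pos.2 hbu), abs_of_pos hℓ]
  have h3 := abs_integral_le_one hφm hφb hφp hφ0 ((b : ℝ) ^ u * a) ((b : ℝ) ^ u * (a + ℓ))
  calc ((b : ℝ) ^ u)⁻¹ * |∫ x in (b : ℝ) ^ u * a..(b : ℝ) ^ u * (a + ℓ), φ x| / ℓ ≤ ((b : ℝ) ^ u)⁻¹ * 1 / ℓ := by gcongr
    _ = 1 / ((b : ℝ) ^ u * ℓ) := by field_simp

end Pool.Agent.Helper47.LD4
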